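import Mathlib

set_option autoImplicit false

namespace Pool.Agent.Results.MP_859259_nt.Coprime

/-- `B(n) = binom(a n + α, b n + β)`; the truncation `Int.toNat` only matters for finitely many
`n` when `a > b > 0`. -/
def B (a b : ℕ) (α β : ℤ) (n : ℕ) : ℕ :=
  ((a : ℤ) * n + α).toNat.choose ((b : ℤ) * n + β).toNat

lemma dvd (p n : ℕ) (hn : 0 < n) : p ∣ ((p + 1) * n - 1).choose n := by
  have h := Nat.choose_mul_succ_eq ((p + 1) * n - 1) n
  have h1 : (p + 1) * n - 1 + 1 = (p + 1) * n := by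
    have : 0 < (p + 1) * n := by positivity
    omega
  have h2 : (p + 1) * n - n = p * n := by
    rw [add_mul, one_mul, Nat.add_sub_cancel]
  rw [h1, h2, ← mul_assoc, ← mul_assoc] at h
  have h3 := Nat.eq_of_mul_eq_mul_right hn h
  have h4 : p ∣ ((p + 1) * n - 1).choose n * (p + 1) := h3 ▸ Dvd.intro_left _ rfl
  exact Nat.Coprime.dvd_of_dvd_mul_right (by simp) h4

lemma B_dvd (p n : ℕ) (hn : 0 < n) : p ∣ B (p + 1) 1 (-1) 0 n := by
  have e1 : (((p + 1 : ℕ) : ℤ) * n + -1).toNat = (p + 1) * n - 1 := by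
    have : (((p + 1 : ℕ) : ℤ) * n) = (((p + 1) * n : ℕ) : ℤ) := by push_cast; ring
    rw [this]
    omega
  have e2 : (((1 : ℕ) : ℤ) * n + 0).toNat = n := by simp
  unfold B
  rw [e1, e2]
  exact dvd p n hn

theorem result : ∀ p : ℕ, p.Prime → ∃ (a b : ℕ) (α β : ℤ), 0 < b ∧ b < a ∧ Nat.gcd p a = 1 ∧
    Nat.gcd a b = 1 ∧ ∀ r : ℕ, 0 < r → r < p →
      ∀ n : ℕ, 0 < n → ¬ B a b α β n ≡ r [MOD p] := by
  intro p hp
  refine ⟨p + 1, 1, -1, 0, one_pos, by have := hp.pos; omega, by simp, by simp, ?_⟩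
  intro r hr hrp n hn h
  have h0 : B (p + 1) 1 (-1) 0 n ≡ 0 [MOD p] := (Nat.modEq_zero_iff_dvd).2 (B_dvd p n hn)
  have := (Nat.modEq_zero_iff_dvd).1 (h.symm.trans h0)
  exact absurd (Nat.le_of_dvd hr this) (by omega)

end Pool.Agent.Results.MP_859259_nt.Coprime
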