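import Mathlib

set_option autoImplicit false

namespace Pool.Agent.Results.MP_859259_nt.Counter

theorem central (m : ℕ) : (2 * m).choose m % 3 = 0 ∨ (2 * m).choose m % 3 = 1 + m % 2 := by
  have : Fact (Nat.Prime 3) := ⟨by norm_num⟩
  induction m using Nat.strong_induction_on with
  | _ m ih =>
  rcases Nat.eq_zero_or_pos m with rfl | hm
  · simp
  have h := Choose.choose_modEq_choose_mod_mul_choose_div_nat (n := 2 * m) (k := m) (p := 3)
  have h1 := ih (m / 3) (by omega)
  unfold Nat.ModEq at h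
  rw [h]
  have h3 : m % 3 = 0 ∨ m % 3 = 1 ∨ m % 3 = 2 := by omega
  rcases h3 with h3 | h3 | h3
  · rw [h3, show 2 * m % 3 = 0 by omega, show 2 * m / 3 = 2 * (m / 3) by omega]
    simp only [Nat.choose_self, one_mul]
    omega
  · rw [h3, show 2 * m % 3 = 2 by omega, show 2 * m / 3 = 2 * (m / 3) by omega]
    simp only [Nat.choose_one_right]
    have h4 : m % 2 = (1 + m / 3 % 2) % 2 := by omega
    generalize (2 * (m / 3)).choose (m / 3) = c at h1 ⊢
    rw [h4]
    generalize m / 3 = q at h1 ⊢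
    rw [Nat.mul_mod]
    rcases Nat.mod_two_eq_zero_or_one q with h5 | h5 <;> rw [h5] at h1 ⊢ <;>
      rcases h1 with h1 | h1 <;> simp [h1]
  · rw [h3, show 2 * m % 3 = 1 by omega]
    simp

theorem result : ∃ (a b : ℕ) (α β : ℤ) (p r : ℕ), 0 < b ∧ b < a ∧ p.Prime ∧ Nat.Coprime p a ∧ r < p ∧
    ∀ n : ℕ, ¬ ((a : ℤ) * n + α).toNat.choose ((b : ℤ) * n + β).toNat ≡ r [MOD p] := by
  refine ⟨4, 2, 0, 0, 3, 2, by norm_num, by norm_num, by norm_num, by norm_num, by norm_num, ?_⟩
  intro n h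
  rw [show (((4 : ℕ) : ℤ) * n + 0).toNat = 2 * (2 * n) by omega,
    show (((2 : ℕ) : ℤ) * n + 0).toNat = 2 * n by omega] at h
  have := central (2 * n)
  unfold Nat.ModEq at h
  omega

end Pool.Agent.Results.MP_859259_nt.Counter
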